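import Mathlib

/-! The Schur multiplier `H_2(G, Z)` through central extensions. -/

namespace Pool.Agent.MP_ac0662_al

open groupHomology Finsupp
open scoped IsMulCommutative

variable {G E : Type} [Group G] [Group E]

/-- The boundary map on 2-chains with integer coefficients. -/
noncomputable def dd2 (G : Type) [Group G] : (G × G →₀ ℤ) →ₗ[ℤ] (G →₀ ℤ) :=
  (d₂₁ (Rep.trivial ℤ G ℤ)).hom

/-- The boundary map on 3-chains with integer coefficients. -/
noncomputable def dd3 (G : Type) [Group G] : (G × G × G →₀ ℤ) →ₗ[ℤ] (G × G →₀ ℤ) :=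
  (d₃₂ (Rep.trivial ℤ G ℤ)).hom

lemma dd2_single (g h : G) (n : ℤ) :
    dd2 G (single (g, h) n) = single h n - single (g * h) n + single g n :=
  d₂₁_single (A := Rep.trivial ℤ G ℤ) (g, h) n

lemma dd3_single (g h k : G) (n : ℤ) :
    dd3 G (single (g, h, k) n) = single (h, k) n - single (g * h, k) n + single (g, h * k) n
      - single (g, h) n :=
  d₃₂_single (A := Rep.trivial ℤ G ℤ) (g, h, k) n

/-- The projection from cycles to homology. -/
noncomputable def projH2 (G : Type) [Group G] :
    LinearMap.ker (dd2 G) →+ H2 (Rep.trivial ℤ G ℤ) :=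
  (H2π (Rep.trivial ℤ G ℤ)).hom.toAddMonoidHom

lemma projH2_surjective : Function.Surjective (projH2 G) := by
  intro x
  induction x using H2_induction_on with
  | h y => exact ⟨y, rfl⟩

lemma projH2_eq_zero_iff (x : LinearMap.ker (dd2 G)) :
    projH2 G x = 0 ↔ x.1 ∈ LinearMap.range (dd3 G) :=
  H2π_eq_zero_iff (A := Rep.trivial ℤ G ℤ) x

section ext

variable (π : E →* G) (hc : π.ker ≤ Subgroup.center E) (s : G → E) (hs : ∀ g, π (s g) = g)

/-- The factor set of a section. -/
def fac (g h : G) : Additive (Subgroup.center E) :=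
  Additive.ofMul ⟨s g * s h * (s (g * h))⁻¹, hc (by simp [MonoidHom.mem_ker, hs])⟩

/-- The factor set, extended to 2-chains. -/
noncomputable def Phi : (G × G →₀ ℤ) →ₗ[ℤ] Additive (Subgroup.center E) :=
  Finsupp.linearCombination ℤ fun p : G × G => fac π hc s hs p.1 p.2

lemma Phi_single (g h : G) (n : ℤ) : Phi π hc s hs (single (g, h) n) = n • fac π hc s hs g h := by
  simp [Phi]

lemma fac_cocycle (g h k : G) : fac π hc s hs h k + fac π hc s hs g (h * k) =
    fac π hc s hs g h + fac π hc s hs (g * h) k := by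
  apply Additive.toMul.injective
  apply Subtype.ext
  have h1 := Subgroup.mem_center_iff.mp (fac π hc s hs h k).toMul.2 (s g)
  simp only [fac, toMul_ofMul, toMul_add, Subgroup.coe_mul] at h1 ⊢
  rw [← mul_assoc (s h * s k * (s (h * k))⁻¹), ← mul_assoc (s h * s k * (s (h * k))⁻¹), ← h1,
    mul_assoc g]
  group

lemma Phi_dd3 (x : G × G × G →₀ ℤ) : Phi π hc s hs (dd3 G x) = 0 := by
  induction x using Finsupp.induction_linear with
  | zero => simp
  | add a b ha hb => simp [ha, hb]
  | single p n =>
    obtain ⟨g, h, k⟩ := p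
    simp only [dd3_single, map_sub, map_add, Phi_single]
    have := fac_cocycle π hc s hs g h k
    rw [← smul_sub, ← smul_add, ← smul_sub]
    convert smul_zero n using 2
    linear_combination (norm := abel) this

lemma Phi_mem_ker (x : G × G →₀ ℤ) : ((Phi π hc s hs x).toMul : E) ∈ π.ker := by
  induction x using Finsupp.induction_linear with
  | zero => simp
  | add a b ha hb => simpa using π.ker.mul_mem ha hb
  | single p n =>
    obtain ⟨g, h⟩ := p
    rw [Phi_single, toMul_zsmul, SubgroupClass.coe_zpow]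
    apply π.ker.zpow_mem
    simp [fac, MonoidHom.mem_ker, hs]

lemma Phi_mem_commutator (x : G × G →₀ ℤ) (hx : dd2 G x = 0) :
    ((Phi π hc s hs x).toMul : E) ∈ commutator E := by
  let S : (G →₀ ℤ) →ₗ[ℤ] Additive (Abelianization E) :=
    Finsupp.linearCombination ℤ fun g => Additive.ofMul (Abelianization.of (s g))
  have key : ∀ y : G × G →₀ ℤ,
      Additive.ofMul (Abelianization.of ((Phi π hc s hs y).toMul : E)) = S (dd2 G y) := by
    intro y
    induction y using Finsupp.induction_linear with
    | zero => simp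
    | add a b ha hb => simp [← ha, ← hb]
    | single p n =>
      obtain ⟨g, h⟩ := p
      rw [Phi_single, toMul_zsmul, SubgroupClass.coe_zpow, map_zpow, ofMul_zpow, dd2_single]
      simp only [S, map_add, map_sub, linearCombination_single, fac, toMul_ofMul, map_mul, map_inv,
        ofMul_mul, ofMul_inv]
      module
  have := key x
  rw [hx, map_zero] at this
  rw [← Abelianization.ker_of, MonoidHom.mem_ker]
  exact this

lemma exists_cycle (z : E) (hz : z ∈ π.ker) (hz' : z ∈ commutator E) :
    ∃ x : G × G →₀ ℤ, dd2 G x = 0 ∧ ((Phi π hc s hs x).toMul : E) = z := by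
  let N : Submodule ℤ (Additive (Subgroup.center E) × (G →₀ ℤ)) :=
    LinearMap.range ((Phi π hc s hs).prod (- dd2 G))
  let kk : E → Additive (Subgroup.center E) := fun e =>
    Additive.ofMul ⟨e * (s (π e))⁻¹, hc (by simp [MonoidHom.mem_ker, hs])⟩
  have hkk : ∀ e e', kk (e * e') = kk e + kk e' + fac π hc s hs (π e) (π e') := by
    intro e e'
    apply Additive.toMul.injective
    apply Subtype.ext
    have h1 := Subgroup.mem_center_iff.mp (kk e').toMul.2 (s (π e))
    simp only [kk, fac, toMul_ofMul, toMul_add, Subgroup.coe_mul, map_mul] at h1 ⊢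
    have h2 : e * (s (π e))⁻¹ * (e' * (s (π e'))⁻¹) * (s (π e) * s (π e') * (s (π e * π e'))⁻¹) =
        e * (s (π e))⁻¹ * ((e' * (s (π e'))⁻¹) * s (π e)) * s (π e') * (s (π e * π e'))⁻¹ := by
      group
    rw [h2, ← h1]
    group
  let ψ : E →* Multiplicative ((Additive (Subgroup.center E) × (G →₀ ℤ)) ⧸ N) :=
    MonoidHom.mk' (fun e => Multiplicative.ofAdd (N.mkQ (kk e, single (π e) 1))) (by
      intro e e'
      rw [← ofAdd_add, ← map_add]
      congr 1
      rw [Submodule.mkQ_apply, Submodule.mkQ_apply, Submodule.Quotient.eq]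
      refine ⟨single (π e, π e') 1, ?_⟩
      simp only [LinearMap.prod_apply, Function.prod_apply, LinearMap.neg_apply, dd2_single, Phi_single,
        one_smul, hkk, map_mul, Prod.mk_add_mk, Prod.mk_sub_mk, Prod.mk.injEq]
      constructor <;> abel)
  have h1 : ψ z = 1 := Abelianization.commutator_subset_ker ψ hz'
  have h2 : N.mkQ (kk z, single (π z) 1) = 0 := h1
  rw [Submodule.mkQ_apply, Submodule.Quotient.mk_eq_zero] at h2
  obtain ⟨x, hx⟩ := h2
  have hz1 : π z = 1 := hz
  simp only [LinearMap.prod_apply, Function.prod_apply, LinearMap.neg_apply, Prod.mk.injEq, hz1] at hx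
  refine ⟨x + single (1, 1) 1, ?_, ?_⟩
  · rw [map_add, dd2_single, ← hx.2]
    simp [← hx.2]
  · rw [map_add, hx.1, Phi_single]
    simp [kk, fac, hz1]

/-- The transgression `H_2(G, Z) → Z(E)` of a central extension. -/
lemma exists_hom : ∃ φ : H2 (Rep.trivial ℤ G ℤ) →+ Additive (Subgroup.center E),
    ∀ x : LinearMap.ker (dd2 G), φ (projH2 G x) = Phi π hc s hs x.1 := by
  let g : LinearMap.ker (dd2 G) →+ Additive (Subgroup.center E) :=
    ((Phi π hc s hs).comp (LinearMap.ker (dd2 G)).subtype).toAddMonoidHom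
  have hg : (projH2 G).ker ≤ g.ker := by
    intro x hx
    obtain ⟨y, hy⟩ := (projH2_eq_zero_iff x).1 hx
    change Phi π hc s hs x.1 = 0
    rw [← hy, Phi_dd3]
  exact ⟨(projH2 G).liftOfSurjective projH2_surjective ⟨g, hg⟩, fun x =>
    AddMonoidHom.liftOfRightInverse_comp_apply _ _ _ _ x⟩

end ext

/-! ### The universal factor set -/

/-- 2-chains modulo boundaries. -/
abbrev UU (G : Type) [Group G] : Type := (G × G →₀ ℤ) ⧸ LinearMap.range (dd3 G)

/-- The class of a basis chain. -/
noncomputable def br (g h : G) : UU G := Submodule.Quotient.mk (single (g, h) 1)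

lemma br_cocycle (g h k : G) : br h k + br g (h * k) = br g h + br (g * h) k := by
  unfold br
  rw [← Submodule.Quotient.mk_add, ← Submodule.Quotient.mk_add, Submodule.Quotient.eq]
  exact ⟨single (g, h, k) 1, by rw [dd3_single]; abel⟩

lemma br_one_left (g : G) : br 1 g = br (1 : G) 1 := by
  have := br_cocycle (1 : G) 1 g
  simpa using this

lemma br_one_right (g : G) : br g 1 = br (1 : G) 1 := by
  have := br_cocycle g 1 1
  simpa using this.symm

/-- The central extension given by the universal factor set. -/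
@[ext] structure EU (G : Type) [Group G] where
  u : UU G
  g : G

noncomputable instance : Mul (EU G) := ⟨fun a b => ⟨a.u + b.u + br a.g b.g, a.g * b.g⟩⟩
noncomputable instance : One (EU G) := ⟨⟨- br 1 1, 1⟩⟩
noncomputable instance : Inv (EU G) := ⟨fun a => ⟨- a.u - br a.g⁻¹ a.g - br 1 1, a.g⁻¹⟩⟩

@[simp] lemma EU.mul_u (a b : EU G) : (a * b).u = a.u + b.u + br a.g b.g := rfl
@[simp] lemma EU.mul_g (a b : EU G) : (a * b).g = a.g * b.g := rfl
@[simp] lemma EU.one_u : (1 : EU G).u = - br 1 1 := rfl
@[simp] lemma EU.one_g : (1 : EU G).g = 1 := rfl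
@[simp] lemma EU.inv_u (a : EU G) : (a⁻¹).u = - a.u - br a.g⁻¹ a.g - br 1 1 := rfl
@[simp] lemma EU.inv_g (a : EU G) : (a⁻¹).g = a.g⁻¹ := rfl

noncomputable instance : Group (EU G) := Group.ofLeftAxioms
  (fun a b c => by
    ext
    · have := br_cocycle a.g b.g c.g
      simp only [EU.mul_u, EU.mul_g]
      linear_combination (norm := abel) this.symm
    · simp [mul_assoc])
  (fun a => by ext <;> simp [br_one_left a.g])
  (fun a => by ext <;> simp; abel)

/-- The projection of the universal extension. -/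
noncomputable def EU.proj (G : Type) [Group G] : EU G →* G := MonoidHom.mk' EU.g fun _ _ => rfl

lemma EU.central : (EU.proj G).ker ≤ Subgroup.center (EU G) := by
  intro a ha
  have h : a.g = 1 := ha
  rw [Subgroup.mem_center_iff]
  intro b
  ext
  · simp [h, br_one_left b.g, br_one_right b.g, add_comm]
  · simp [h]

lemma EU.Phi_u (x : G × G →₀ ℤ) :
    ((Phi (EU.proj G) EU.central (fun g => ⟨0, g⟩) (fun _ => rfl) x).toMul : EU G).u =
      Submodule.Quotient.mk x - br 1 1 := by
  let ε : Additive (EU.proj G).ker →+ UU G := AddMonoidHom.mk'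
    (fun a => (a.toMul : EU G).u + br 1 1) (by
      intro a b
      have ha : (a.toMul : EU G).g = 1 := a.toMul.2
      have hb : (b.toMul : EU G).g = 1 := b.toMul.2
      simp only [toMul_add, Subgroup.coe_mul, EU.mul_u, ha, hb]
      abel)
  let Ψ : (G × G →₀ ℤ) →+ Additive (EU.proj G).ker := AddMonoidHom.mk'
    (fun y => Additive.ofMul ⟨_, Phi_mem_ker (EU.proj G) EU.central (fun g => ⟨0, g⟩)
      (fun _ => rfl) y⟩) (by
      intro a b
      apply Additive.toMul.injective
      apply Subtype.ext
      simp)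
  have key : ε.comp Ψ = (LinearMap.range (dd3 G)).mkQ.toAddMonoidHom := by
    apply Finsupp.addHom_ext'
    rintro ⟨g, h⟩
    apply AddMonoidHom.ext_int
    change ((Phi (EU.proj G) EU.central (fun g => ⟨0, g⟩) (fun _ => rfl)
      (single (g, h) 1)).toMul : EU G).u + br 1 1 = br g h
    rw [Phi_single, one_smul]
    have h1 := br_cocycle (g * h) (g * h)⁻¹ (g * h)
    simp only [inv_mul_cancel, mul_inv_cancel, br_one_left (g * h), br_one_right (g * h)] at h1
    simp only [fac, toMul_ofMul, EU.mul_u, EU.mul_g, EU.inv_u, EU.inv_g]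
    linear_combination (norm := abel) h1.symm
  have := DFunLike.congr_fun key x
  exact eq_sub_of_add_eq this

/-- A criterion for computing the Schur multiplier. -/
theorem schur_iso {A : Type} [AddCommGroup A] [Finite A] (π : E →* G)
    (hsurj : Function.Surjective π) (hc : π.ker ≤ Subgroup.center E)
    (α : Multiplicative A →* E) (hα : Function.Injective α) (hker : π.ker = α.range)
    (hcomm : α.range ≤ commutator E)
    (hup : ∀ (F : Type) [Group F] (ρ : F →* G), Function.Surjective ρ →
      ρ.ker ≤ Subgroup.center F → ∃ η : A → F, ∀ z ∈ ρ.ker, z ∈ commutator F → z ∈ Set.range η) :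
    Nonempty (A ≃+ H2 (Rep.trivial ℤ G ℤ)) := by
  -- the upper bound
  obtain ⟨η, hη⟩ := hup (EU G) (EU.proj G) (fun g => ⟨⟨0, g⟩, rfl⟩) EU.central
  obtain ⟨φ, hφ⟩ := exists_hom (EU.proj G) EU.central (fun g => ⟨0, g⟩) (fun _ => rfl)
  have hφi : Function.Injective φ := by
    rw [injective_iff_map_eq_zero]
    intro y hy
    obtain ⟨x, rfl⟩ := projH2_surjective y
    rw [hφ] at hy
    have h1 := EU.Phi_u x.1
    rw [hy] at h1
    rw [projH2_eq_zero_iff, ← Submodule.Quotient.mk_eq_zero]
    simpa using h1.symm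
  have hφr : ∀ y, ∃ a, η a = ((φ y).toMul : EU G) := by
    intro y
    obtain ⟨x, rfl⟩ := projH2_surjective y
    rw [hφ]
    exact hη _ (Phi_mem_ker _ _ _ _ _) (Phi_mem_commutator _ _ _ _ _ x.2)
  choose j hj using hφr
  have hji : Function.Injective j := by
    intro y y' h
    apply hφi
    apply Additive.toMul.injective
    apply Subtype.ext
    rw [← hj, ← hj, h]
  have : Finite (H2 (Rep.trivial ℤ G ℤ)) := Finite.of_injective j hji
  have hcard := Nat.card_le_card_of_injective j hji
  -- the lower bound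
  obtain ⟨s, hs⟩ := hsurj.hasRightInverse
  obtain ⟨χ, hχ⟩ := exists_hom π hc s hs
  have hχr : ∀ y, ∃ a : A, α (Multiplicative.ofAdd a) = ((χ y).toMul : E) := by
    intro y
    obtain ⟨x, rfl⟩ := projH2_surjective y
    rw [hχ]
    have := Phi_mem_ker π hc s hs x.1
    rw [hker] at this
    exact this
  choose f hf using hχr
  let f' : H2 (Rep.trivial ℤ G ℤ) →+ A := AddMonoidHom.mk' f (by
    intro a b
    apply Multiplicative.ofAdd.injective
    apply hα
    rw [ofAdd_add, map_mul, hf, hf, hf]
    simp)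
  have hfs : Function.Surjective f' := by
    intro a
    obtain ⟨x, hx, hx'⟩ := exists_cycle π hc s hs (α (Multiplicative.ofAdd a))
      (by rw [hker]; exact ⟨_, rfl⟩) (hcomm ⟨_, rfl⟩)
    refine ⟨projH2 G ⟨x, hx⟩, ?_⟩
    apply Multiplicative.ofAdd.injective
    apply hα
    change α (Multiplicative.ofAdd (f _)) = _
    rw [hf, hχ, hx']
  exact ⟨(AddEquiv.ofBijective f' (hfs.bijective_of_nat_card_le hcard)).symm⟩

end Pool.Agent.MP_ac0662_al
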