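import Pool.Agent.MP_ac0662_al.Model

namespace Pool.Agent.MP_ac0662_al

open Polynomial WW
open scoped IsMulCommutative commutatorElement

variable {Λ A : Type} [CommRing Λ] [AddCommGroup A]

/-- All the data of the construction. -/
structure Setup (D : Datum Λ A) (d q : ℕ) (g : Λ) where
  κ : Multiplicative Λ →* WW D
  ev : Λ →+ ZMod d
  κx : ∀ F, (κ (.ofAdd F)).x = F * g
  κi : ∀ F, (κ F).i = 0
  κT : ∀ (j : ℤ) F, TT D ^ j * κ (.ofAdd F) * (TT D ^ j)⁻¹ = κ (.ofAdd ((D.t ^ j : Λˣ) * F))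
  ev1 : ev 1 = 1
  evt : ∀ (j : ℤ) x, ev ((D.t ^ j : Λˣ) * x) = ev x
  evk : ∀ F, ev F = 0 → ∃ F', F = (D.t - 1) * F'
  hd : ∀ x : Λ, d • x = 0
  hgc : ∀ F y, D.β (F * g) y = D.β y (F * g)
  hq : ∃ c, ((D.t ^ (q : ℤ) : Λˣ) : Λ) - 1 = c * (D.t - 1) * g

namespace Setup

variable {D : Datum Λ A} {d q : ℕ} {g : Λ} (S : Setup D d q g)

lemma ev_s (F : Λ) : S.ev ((D.t - 1) * F) = 0 := by
  have := S.evt 1 F
  rw [zpow_one] at this
  rw [sub_mul, map_sub, this, one_mul, sub_self]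

lemma ev_int (m : ℤ) : S.ev m = m := by
  rw [← zsmul_one m, map_zsmul, S.ev1, zsmul_one]

lemma κ_comm (F x : Λ) (a : A) :
    (⟨x, a, 0⟩ : WW D) * S.κ (.ofAdd F) = S.κ (.ofAdd F) * ⟨x, a, 0⟩ := by
  ext <;> simp [S.κi, S.κx, add_comm, S.hgc]

lemma κ_conj (w : WW D) (F : Λ) :
    w * S.κ (.ofAdd F) * w⁻¹ = S.κ (.ofAdd ((D.t ^ w.i : Λˣ) * F)) := by
  have h1 := S.κT w.i F
  have h2 := S.κ_comm ((D.t ^ w.i : Λˣ) * F) w.x w.a
  conv_lhs => rw [WW.decomp w]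
  calc _ = (⟨w.x, w.a, 0⟩ : WW D) * (TT D ^ w.i * S.κ (.ofAdd F) * (TT D ^ w.i)⁻¹) *
      (⟨w.x, w.a, 0⟩ : WW D)⁻¹ := by group
    _ = _ := by rw [h1, h2]; group

lemma eq_κ_mul (w : WW D) (F : Λ) (hx : w.x = F * g) :
    ∃ a : A, w = al D (.ofAdd a) * (S.κ (.ofAdd F) * TT D ^ w.i) := by
  refine ⟨w.a - (S.κ (.ofAdd F)).a, ?_⟩
  rw [TT_zpow, al_apply]
  ext <;> simp [S.κi, S.κx, hx]

/-- The first normal subgroup. -/
def K0 : Subgroup (WW D) where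
  carrier := {w | ∃ F, S.ev F = 0 ∧ w = S.κ (.ofAdd F)}
  one_mem' := ⟨0, by simp⟩
  mul_mem' := by
    rintro _ _ ⟨a, ha, rfl⟩ ⟨b, hb, rfl⟩
    exact ⟨a + b, by simp [ha, hb], by rw [ofAdd_add, map_mul]⟩
  inv_mem' := by
    rintro _ ⟨a, ha, rfl⟩
    exact ⟨-a, by simp [ha], by rw [ofAdd_neg, map_inv]⟩

instance : S.K0.Normal := ⟨by
  rintro _ ⟨F, hF, rfl⟩ w
  exact ⟨_, by rw [S.evt, hF], S.κ_conj w F⟩⟩

lemma map_central {E E' : Type} [Group E] [Group E'] (μ : E →* E') (hμ : Function.Surjective μ)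
    {z : E} (hz : z ∈ Subgroup.center E) : μ z ∈ Subgroup.center E' := by
  rw [Subgroup.mem_center_iff] at hz ⊢
  intro y
  obtain ⟨y, rfl⟩ := hμ y
  rw [← map_mul, hz, map_mul]

lemma comm_TT (w : WW D) (m : ℤ) : ⁅w, TT D ^ (m * (q * d : ℕ))⁆ ∈ S.K0 := by
  let μ := QuotientGroup.mk' S.K0
  have hμ : Function.Surjective μ := QuotientGroup.mk'_surjective _
  have h0 : ∀ (x : Λ) (a : A), Commute (μ (TT D) ^ (q * d)) (μ ⟨x, a, 0⟩) := by
    intro x a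
    rw [← commutatorElement_eq_one_iff_commute, pow_mul]
    apply commute_pow_of_central
    · obtain ⟨c, hc⟩ := S.hq
      rw [← map_pow, ← map_commutatorElement]
      obtain ⟨b, hb⟩ := S.eq_κ_mul ⁅TT D ^ q, (⟨x, a, 0⟩ : WW D)⁆ ((D.t - 1) * (c * x)) (by
        rw [commutatorElement_def, ← zpow_natCast, conj_TT]
        simp only [mul_x, inv_x, neg_zero, zpow_zero, Units.val_one, one_mul]
        linear_combination x * hc)
      have hi : (⁅TT D ^ q, (⟨x, a, 0⟩ : WW D)⁆).i = 0 := by simp [commutatorElement_def]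
      have h1 : μ (S.κ (.ofAdd ((D.t - 1) * (c * x)))) = 1 :=
        (QuotientGroup.eq_one_iff _).2 ⟨_, S.ev_s _, rfl⟩
      rw [hb, hi, zpow_zero, mul_one, map_mul, h1, mul_one]
      exact map_central μ hμ (al_central _)
    · rw [← map_pow, pow_zero_i, S.hd]
      exact map_central μ hμ (al_central (.ofAdd _))
  rw [← QuotientGroup.eq_one_iff]
  change μ _ = 1
  rw [map_commutatorElement, commutatorElement_eq_one_iff_commute, WW.decomp w, map_mul,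
    map_zpow, map_zpow, mul_comm m, zpow_mul, zpow_natCast]
  refine Commute.mul_left ((h0 _ _).symm.zpow_right m) ?_
  rw [← zpow_natCast, ← zpow_mul]
  exact Commute.zpow_zpow_self _ _ _

/-- The kernel of the projection onto the covering group. -/
def L0 : Subgroup (WW D) where
  carrier := {w | ∃ (F : Λ) (m : ℤ), S.ev F + m = 0 ∧
    w = S.κ (.ofAdd F) * TT D ^ (m * (q * d : ℕ))}
  one_mem' := ⟨0, 0, by simp⟩
  mul_mem' := by
    rintro _ _ ⟨a, m, ha, rfl⟩ ⟨b, n, hb, rfl⟩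
    refine ⟨a + (D.t ^ (m * (q * d : ℕ)) : Λˣ) * b, m + n, ?_, ?_⟩
    · rw [map_add, S.evt]; push_cast; linear_combination ha + hb
    · rw [ofAdd_add, map_mul, ← S.κT, add_mul, zpow_add]; group
  inv_mem' := by
    rintro _ ⟨a, m, ha, rfl⟩
    refine ⟨(D.t ^ (-(m * (q * d : ℕ))) : Λˣ) * -a, -m, ?_, ?_⟩
    · rw [S.evt, map_neg]; push_cast; linear_combination -ha
    · rw [← S.κT, ofAdd_neg, map_inv]; group

instance : S.L0.Normal := ⟨by
  rintro _ ⟨F, m, hF, rfl⟩ w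
  obtain ⟨F₀, h₀, h₁⟩ := S.comm_TT w m
  refine ⟨(D.t ^ w.i : Λˣ) * F + F₀, m, by rw [map_add, S.evt, h₀, add_zero, hF], ?_⟩
  rw [ofAdd_add, map_mul, ← h₁, ← S.κ_conj, commutatorElement_def]
  group⟩

/-- The kernel of the projection onto the finite group. -/
def LL : Subgroup (WW D) where
  carrier := {w | ∃ (F : Λ) (m : ℤ), S.ev F + m = 0 ∧ w.x = F * g ∧ w.i = m * (q * d : ℕ)}
  one_mem' := ⟨0, 0, by simp⟩
  mul_mem' := by
    rintro u v ⟨a, m, ha, h1, h2⟩ ⟨b, n, hb, h3, h4⟩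
    refine ⟨a + (D.t ^ u.i : Λˣ) * b, m + n, ?_, ?_, ?_⟩
    · rw [map_add, S.evt]; push_cast; linear_combination ha + hb
    · rw [mul_x, h1, h3]; ring
    · rw [mul_i, h2, h4]; ring
  inv_mem' := by
    rintro u ⟨a, m, ha, h1, h2⟩
    refine ⟨(D.t ^ (-u.i) : Λˣ) * -a, -m, ?_, ?_, ?_⟩
    · rw [S.evt, map_neg]; push_cast; linear_combination -ha
    · rw [inv_x, h1]; ring
    · rw [inv_i, h2]; ring

lemma L0_le : S.L0 ≤ S.LL := by
  rintro _ ⟨F, m, hF, rfl⟩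
  exact ⟨F, m, hF, by simp [TT_zpow, S.κx], by simp [TT_zpow, S.κi]⟩

lemma al_mem (a : Multiplicative A) : al D a ∈ S.LL := ⟨0, 0, by simp, by simp [al], by simp [al]⟩

lemma mem_LL {w : WW D} (hw : w ∈ S.LL) : ∃ a : A, ∃ v ∈ S.L0, w = al D (.ofAdd a) * v := by
  obtain ⟨F, m, hF, h1, h2⟩ := hw
  obtain ⟨a, ha⟩ := S.eq_κ_mul w F h1
  exact ⟨a, _, ⟨F, m, hF, by rw [h2]⟩, ha⟩

instance : S.LL.Normal := ⟨by
  intro w hw u
  obtain ⟨a, v, hv, rfl⟩ := S.mem_LL hw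
  have h1 := Subgroup.mem_center_iff.mp (al_central (D := D) (.ofAdd a)) u
  have : u * (al D (.ofAdd a) * v) * u⁻¹ = al D (.ofAdd a) * (u * v * u⁻¹) := by
    rw [← mul_assoc, h1]; group
  rw [this]
  exact S.LL.mul_mem (S.al_mem _) (S.L0_le (Subgroup.Normal.conj_mem inferInstance v hv u))⟩

/-- The image of `Λ` in the finite group. -/
def io : Multiplicative Λ →* WW D ⧸ S.LL :=
  MonoidHom.mk' (fun x => QuotientGroup.mk' S.LL ⟨x.toAdd, 0, 0⟩) fun a b => by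
    rw [← map_mul]
    exact QuotientGroup.eq.mpr ⟨0, 0, by simp, by simp, by simp⟩

lemma io_apply (x : Λ) (a : A) : S.io (.ofAdd x) = QuotientGroup.mk' S.LL ⟨x, a, 0⟩ :=
  QuotientGroup.eq.mpr ⟨0, 0, by simp, by simp, by simp⟩

/-- The image of the generator of the top. -/
def Tq : WW D ⧸ S.LL := QuotientGroup.mk' S.LL (TT D)

lemma conj_io (j : ℤ) (x : Λ) :
    S.Tq ^ j * S.io (.ofAdd x) * (S.Tq ^ j)⁻¹ = S.io (.ofAdd ((D.t ^ j : Λˣ) * x)) := by
  rw [S.io_apply x 0, S.io_apply _ 0, ← conj_TT, map_mul, map_mul, map_inv, map_zpow]; rfl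

lemma gen (u : WW D ⧸ S.LL) : ∃ (x : Λ) (i : ℤ), u = S.io (.ofAdd x) * S.Tq ^ i := by
  obtain ⟨w, rfl⟩ := QuotientGroup.mk'_surjective _ u
  refine ⟨w.x, w.i, ?_⟩
  rw [S.io_apply _ w.a, Tq, ← map_zpow, ← map_mul, ← WW.decomp w]

lemma io_mul_g (F : Λ) (m : ℤ) (h : S.ev F = m) :
    S.io (.ofAdd (F * g)) = S.Tq ^ (m * (q * d : ℕ)) := by
  rw [S.io_apply _ 0, Tq, ← map_zpow, TT_zpow]
  exact QuotientGroup.eq.mpr ⟨-F, m, by simp [h], by simp, by simp⟩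

lemma io_eq_one {x : Λ} (hqd : q * d ≠ 0) (h : S.io (.ofAdd x) = 1) :
    ∃ F, x = (D.t - 1) * (F * g) := by
  rw [S.io_apply _ 0] at h
  obtain ⟨F, m, hF, h1, h2⟩ := (QuotientGroup.eq_one_iff _).1 h
  have hm : m = 0 := by
    rcases mul_eq_zero.mp h2.symm with h | h
    · exact h
    · exact absurd (Nat.cast_eq_zero.mp h) hqd
  obtain ⟨F', rfl⟩ := S.evk F (by simpa [hm] using hF)
  exact ⟨F', by rw [← mul_assoc]; exact h1⟩

lemma io_tq (y : Λ) : S.io (.ofAdd ((D.t ^ (q : ℤ) : Λˣ) * y)) = S.io (.ofAdd y) := by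
  obtain ⟨c, hc⟩ := S.hq
  have e : (D.t ^ (q : ℤ) : Λˣ) * y = (D.t - 1) * (c * y) * g + y := by
    linear_combination y * hc
  rw [e, ofAdd_add, map_mul, S.io_mul_g _ 0 (by rw [S.ev_s]; simp)]
  simp

theorem schur [Finite A] (hgen : Gen D.t) (hqd : q * d ≠ 0) {P Q : ℤ[X]} (θ : ℤ[X] →+ A)
    (hθ : Function.Surjective θ) (hker : ∀ F, θ F = 0 ↔ F ∈ Ideal.span {P, Q})
    (hg : g = aeval (ww D.t) P * (D.t - 1) + aeval (ww D.t) Q)
    (hrg : ∀ F, F * g = 0 → F = 0) (hrs : ∀ F : Λ, (D.t - 1) * F = 0 → F = 0)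
    (hβ : ∀ a, ∃ x y, a = D.β x y - D.β y x) :
    Nonempty (A ≃+ groupHomology.H2 (Rep.trivial ℤ (WW D ⧸ S.LL) ℤ)) := by
  let π : WW D ⧸ S.L0 →* WW D ⧸ S.LL := QuotientGroup.map S.L0 S.LL (MonoidHom.id _) S.L0_le
  let μ := QuotientGroup.mk' S.L0
  have hμ : Function.Surjective μ := QuotientGroup.mk'_surjective _
  have hπ : ∀ w, π (μ w) = QuotientGroup.mk' S.LL w := fun _ => rfl
  have hk : π.ker = (μ.comp (al D)).range := by
    ext u
    obtain ⟨w, rfl⟩ := hμ u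
    rw [MonoidHom.mem_ker, hπ]
    constructor
    · intro h
      obtain ⟨a, v, hv, rfl⟩ := S.mem_LL ((QuotientGroup.eq_one_iff _).1 h)
      have : μ v = 1 := (QuotientGroup.eq_one_iff _).2 hv
      exact ⟨.ofAdd a, by rw [map_mul, this, mul_one]; rfl⟩
    · rintro ⟨a, ha⟩
      rw [← hπ, ← ha]
      exact (QuotientGroup.eq_one_iff _).2 (S.al_mem a)
  refine schur_iso π (fun u => ?_) ?_ (μ.comp (al D)) ?_ hk ?_ ?_
  · obtain ⟨w, rfl⟩ := QuotientGroup.mk'_surjective _ u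
    exact ⟨μ w, rfl⟩
  · rw [hk]
    rintro _ ⟨a, rfl⟩
    exact map_central μ hμ (al_central a)
  · rw [injective_iff_map_eq_one]
    intro a ha
    obtain ⟨F, m, -, h⟩ := (QuotientGroup.eq_one_iff _).1 ha
    have h1 := congrArg WW.x h
    have h2 := congrArg WW.i h
    have h3 := congrArg WW.a h
    simp only [al, MonoidHom.mk'_apply, TT_zpow, mul_x, mul_i, mul_a, S.κx, S.κi, mul_zero,
      add_zero, map_zero] at h1 h2 h3
    rw [hrg F h1.symm] at h3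
    simpa using h3
  · rintro _ ⟨a, rfl⟩
    obtain ⟨x, y, h⟩ := hβ a.toAdd
    have : (μ.comp (al D)) a = ⁅μ ⟨x, 0, 0⟩, μ ⟨y, 0, 0⟩⁆ := by
      rw [← map_commutatorElement, comm_zero_i, ← h]; rfl
    rw [this]
    exact Subgroup.commutator_mem_commutator (Subgroup.mem_top _) (Subgroup.mem_top _)
  · refine upper_bound D.t hgen θ hθ hker S.io S.Tq (fun x => ?_) S.gen q d S.hd (fun y => ?_) ?_
      fun x hx => ?_
    · simpa using S.conj_io 1 x
    · rw [commutatorElement_def, ← zpow_natCast, S.conj_io, S.io_tq, mul_inv_cancel]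
    · have := S.io_mul_g 1 1 (by simp [S.ev1])
      rw [one_mul, one_mul, zpow_natCast] at this
      rw [← hg, this]
    · obtain ⟨F, hF⟩ := S.io_eq_one hqd hx
      have : x = F * g := sub_eq_zero.mp (hrs _ (by rw [mul_sub, hF, sub_self]))
      obtain ⟨m, hm⟩ := ZMod.intCast_surjective (S.ev F)
      exact ⟨_, by rw [this, S.io_mul_g F m hm.symm]⟩

lemma nonabelian (hqd : q * d ≠ 0) (hrs : ∀ F : Λ, (D.t - 1) * F = 0 → F = 0)
    (hu : ¬ IsUnit g) : ∃ x y : WW D ⧸ S.LL, x * y ≠ y * x := by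
  refine ⟨S.Tq, S.io (.ofAdd 1), fun h => hu ?_⟩
  have h1 := S.conj_io 1 1
  rw [zpow_one, h, mul_inv_cancel_right, zpow_one, mul_one] at h1
  have h2 : S.io (.ofAdd ((D.t : Λ) - 1)) = 1 := by
    rw [ofAdd_sub, _root_.map_div, ← h1, div_self']
  obtain ⟨F, hF⟩ := S.io_eq_one hqd h2
  have : F * g - 1 = 0 := hrs _ (by rw [mul_sub, ← hF, mul_one, sub_self])
  exact IsUnit.of_mul_eq_one_right F (sub_eq_zero.mp this)

lemma pow_eq_one (u : WW D ⧸ S.LL) : u ^ (q * d * d) = 1 := by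
  obtain ⟨x, i, rfl⟩ := S.gen u
  have h1 : ∀ n : ℕ, ∃ y, (S.io (.ofAdd x) * S.Tq ^ i) ^ n = S.io (.ofAdd y) * S.Tq ^ (i * n) := by
    intro n
    induction n with
    | zero => exact ⟨0, by simp⟩
    | succ n ih =>
      obtain ⟨y, hy⟩ := ih
      refine ⟨y + (D.t ^ (i * n) : Λˣ) * x, ?_⟩
      rw [pow_succ, hy, ofAdd_add, map_mul, ← S.conj_io]
      push_cast
      group
  obtain ⟨y, hy⟩ := h1 (q * d)
  rw [pow_mul, hy, ← S.io_mul_g i i (S.ev_int i), ← map_mul, ← map_pow, ← ofAdd_add,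
    ← ofAdd_nsmul, S.hd, ofAdd_zero, map_one]

lemma finite (hgen : Gen D.t) (hqd : q * d ≠ 0) : Finite (WW D ⧸ S.LL) := by
  have hq : q ≠ 0 := left_ne_zero_of_mul hqd
  have : NeZero d := ⟨right_ne_zero_of_mul hqd⟩
  have h0 : ∀ (k : ℤ) (y : Λ),
      S.io (.ofAdd ((D.t ^ ((q : ℤ) * k) : Λˣ) * y)) = S.io (.ofAdd y) := by
    intro k
    induction k using Int.induction_on with
    | zero => simp
    | succ k ih =>
      intro y
      rw [mul_add, mul_one, zpow_add, Units.val_mul, mul_assoc, ih, S.io_tq]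
    | pred k ih =>
      intro y
      rw [mul_sub, mul_one, sub_eq_add_neg, zpow_add, Units.val_mul, mul_assoc, ih, ← S.io_tq,
        ← mul_assoc, ← Units.val_mul, ← zpow_add]
      simp
  let I : AddSubgroup Λ := (MonoidHom.toAdditiveRight S.io).ker
  have hfin : Finite (Λ ⧸ I) := by
    have hfg : AddGroup.FG (Λ ⧸ I) := by
      rw [AddGroup.fg_iff]
      refine ⟨Set.range fun j : Fin q => QuotientAddGroup.mk' I ((D.t ^ ((j : ℕ) : ℤ) : Λˣ) : Λ), ?_,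
        Set.finite_range _⟩
      rw [eq_top_iff]
      rintro u -
      obtain ⟨x, rfl⟩ := QuotientAddGroup.mk'_surjective I u
      rw [← AddSubgroup.mem_comap]
      refine hgen _ (fun i => ?_) x
      apply AddSubgroup.subset_closure
      have h1 : 0 ≤ i % q := Int.emod_nonneg _ (by exact_mod_cast hq)
      have h2 : i % q < q := Int.emod_lt_of_pos _ (by exact_mod_cast Nat.pos_of_ne_zero hq)
      refine ⟨⟨(i % q).toNat, by omega⟩, ?_⟩
      simp only [Int.toNat_of_nonneg h1]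
      refine QuotientAddGroup.eq.mpr ?_
      change S.io (.ofAdd _) = 1
      have h3 := h0 (i / q) ((D.t ^ (i % q) : Λˣ) : Λ)
      rw [← Units.val_mul, ← zpow_add, Int.mul_ediv_add_emod] at h3
      rw [ofAdd_add, ofAdd_neg, map_mul, map_inv, h3, inv_mul_cancel]
    apply AddCommGroup.finite_of_fg_isAddTorsion
    intro u
    obtain ⟨x, rfl⟩ := QuotientAddGroup.mk'_surjective I u
    rw [isOfFinAddOrder_iff_nsmul_eq_zero]
    exact ⟨d, NeZero.pos d, by rw [← map_nsmul, S.hd, map_zero]⟩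
  refine Finite.of_surjective
    (fun p : (Λ ⧸ I) × Fin (q * d) => S.io (.ofAdd p.1.out) * S.Tq ^ ((p.2 : ℕ) : ℤ)) fun u => ?_
  obtain ⟨x, i, rfl⟩ := S.gen u
  have h1 : 0 ≤ i % (q * d : ℕ) := Int.emod_nonneg _ (by exact_mod_cast hqd)
  have h2 : i % (q * d : ℕ) < (q * d : ℕ) :=
    Int.emod_lt_of_pos _ (by exact_mod_cast Nat.pos_of_ne_zero hqd)
  set m := i / (q * d : ℕ) with hm
  refine ⟨(QuotientAddGroup.mk (x + m * g), ⟨(i % (q * d : ℕ)).toNat, by omega⟩), ?_⟩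
  simp only [Int.toNat_of_nonneg h1]
  have h3 : S.io (.ofAdd (QuotientAddGroup.mk (s := I) (x + m * g)).out) =
      S.io (.ofAdd (x + m * g)) := by
    have : S.io (.ofAdd (-(QuotientAddGroup.mk (s := I) (x + m * g)).out + (x + m * g))) = 1 :=
      QuotientAddGroup.eq.mp (QuotientAddGroup.out_eq' (QuotientAddGroup.mk (s := I) (x + m * g)))
    rwa [ofAdd_add, ofAdd_neg, map_mul, map_inv, inv_mul_eq_one] at this
  rw [h3, ofAdd_add, map_mul, S.io_mul_g m m (S.ev_int m), mul_assoc, ← zpow_add, hm,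
    Int.ediv_mul_add_emod]

end Setup

end Pool.Agent.MP_ac0662_al
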