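import Pool.Agent.MP_ac0662_al.Upper
import Pool.Agent.MP_ac0662_al.Central

/-! The group and its covering group. -/

namespace Pool.Agent.MP_ac0662_al

open Polynomial
open scoped IsMulCommutative commutatorElement

/-- A unit and an invariant biadditive form. -/
structure Datum (Λ A : Type) [CommRing Λ] [AddCommGroup A] where
  t : Λˣ
  β : Λ →+ Λ →+ A
  inv : ∀ x y, β (t * x) (t * y) = β x y

variable {Λ A : Type} [CommRing Λ] [AddCommGroup A]

/-- The big group. -/
@[ext] structure WW (D : Datum Λ A) where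
  x : Λ
  a : A
  i : ℤ

namespace WW

variable {D : Datum Λ A}

instance : Mul (WW D) := ⟨fun u v => ⟨u.x + (D.t ^ u.i : Λˣ) * v.x,
  u.a + v.a + D.β u.x ((D.t ^ u.i : Λˣ) * v.x), u.i + v.i⟩⟩
instance : One (WW D) := ⟨⟨0, 0, 0⟩⟩
instance : Inv (WW D) := ⟨fun u => ⟨-((D.t ^ (-u.i) : Λˣ) * u.x), -u.a + D.β u.x u.x, -u.i⟩⟩

@[simp] lemma mul_x (u v : WW D) : (u * v).x = u.x + (D.t ^ u.i : Λˣ) * v.x := rfl
@[simp] lemma mul_a (u v : WW D) :
    (u * v).a = u.a + v.a + D.β u.x ((D.t ^ u.i : Λˣ) * v.x) := rfl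
@[simp] lemma mul_i (u v : WW D) : (u * v).i = u.i + v.i := rfl
@[simp] lemma one_x : (1 : WW D).x = 0 := rfl
@[simp] lemma one_a : (1 : WW D).a = 0 := rfl
@[simp] lemma one_i : (1 : WW D).i = 0 := rfl
@[simp] lemma inv_x (u : WW D) : (u⁻¹).x = -((D.t ^ (-u.i) : Λˣ) * u.x) := rfl
@[simp] lemma inv_a (u : WW D) : (u⁻¹).a = -u.a + D.β u.x u.x := rfl
@[simp] lemma inv_i (u : WW D) : (u⁻¹).i = -u.i := rfl

instance : Group (WW D) := Group.ofLeftAxioms
  (fun u v w => by
    ext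
    · simp only [mul_x, mul_i, zpow_add, Units.val_mul]; ring
    · simp only [mul_x, mul_a, mul_i, zpow_add, Units.val_mul, map_add, AddMonoidHom.add_apply,
        mul_add, mul_assoc, inv_zpow_form D.t D.β D.inv]
      abel
    · simp [add_assoc])
  (fun u => by ext <;> simp)
  (fun u => by
    ext
    · simp
    · simp only [mul_a, inv_x, inv_a, inv_i, map_neg, AddMonoidHom.neg_apply,
        inv_zpow_form D.t D.β D.inv, one_a]
      abel
    · simp)

variable (D)

/-- The central subgroup. -/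
def al : Multiplicative A →* WW D :=
  MonoidHom.mk' (fun a => ⟨0, a.toAdd, 0⟩) fun a b => by ext <;> simp

/-- The generator of the cyclic top. -/
def TT : WW D := ⟨0, 0, 1⟩

variable {D}

lemma al_apply (a : A) : al D (.ofAdd a) = ⟨0, a, 0⟩ := rfl

lemma al_central (a : Multiplicative A) : al D a ∈ Subgroup.center (WW D) := by
  rw [Subgroup.mem_center_iff]
  intro w
  ext <;> simp [al, add_comm]

lemma TT_zpow (j : ℤ) : TT D ^ j = ⟨0, 0, j⟩ := by
  induction j using Int.induction_on with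
  | zero => rfl
  | succ i ih => rw [zpow_add_one, ih]; ext <;> simp [TT]
  | pred i ih => rw [zpow_sub_one, ih]; ext <;> simp [TT, sub_eq_add_neg]

lemma TT_pow (j : ℕ) : TT D ^ j = ⟨0, 0, j⟩ := by rw [← zpow_natCast, TT_zpow]

lemma decomp (w : WW D) : w = (⟨w.x, w.a, 0⟩ : WW D) * TT D ^ w.i := by
  rw [TT_zpow]; ext <;> simp

lemma conj_TT (j : ℤ) (x : Λ) (a : A) :
    TT D ^ j * (⟨x, a, 0⟩ : WW D) * (TT D ^ j)⁻¹ = ⟨(D.t ^ j : Λˣ) * x, a, 0⟩ := by
  rw [TT_zpow]; ext <;> simp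

lemma pow_zero_i (x : Λ) (a : A) (n : ℕ) :
    (⟨x, a, 0⟩ : WW D) ^ n = ⟨n • x, n • a + n.choose 2 • D.β x x, 0⟩ := by
  induction n with
  | zero => ext <;> simp
  | succ n ih =>
    rw [pow_succ, ih]
    ext
    · simp [add_mul]
    · simp only [mul_a, zpow_zero, Units.val_one, one_mul, map_nsmul, AddMonoidHom.nsmul_apply,
        Nat.choose_succ_succ' n 1, Nat.choose_one_right, add_smul, one_smul]
      abel
    · simp

lemma comm_zero_i (x y : Λ) :
    ⁅(⟨x, 0, 0⟩ : WW D), (⟨y, 0, 0⟩ : WW D)⁆ = al D (.ofAdd (D.β x y - D.β y x)) := by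
  rw [commutatorElement_def, al_apply]
  ext
  · simp
  · simp; abel
  · simp

end WW

open WW

/-- The subgroup of elements with trivial top component. -/
def H0 (D : Datum Λ A) : Subgroup (WW D) where
  carrier := {w | w.i = 0}
  one_mem' := rfl
  mul_mem' := by intro a b (ha : a.i = 0) (hb : b.i = 0); simp [ha, hb]
  inv_mem' := by intro a (ha : a.i = 0); simp [ha]

/-- `Λ` is free on the powers of `t` among abelian groups killed by `d`. -/
def Free (t : Λˣ) (d : ℕ) : Prop := ∀ (Z : Type) [AddCommGroup Z] (z : ℤ → Z),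
  (∀ i, d • z i = 0) → ∃ φ : Λ →+ Z, ∀ i : ℤ, φ ((t ^ i : Λˣ) : Λ) = z i

lemma exists_kappa (D : Datum Λ A) (d : ℕ) (hgen : Gen D.t) (hfree : Free D.t d)
    (hd : ∀ x : Λ, d • x = 0) (hd2 : ∀ a : A, d.choose 2 • a = 0) (g : Λ)
    (hgc : ∀ F y, D.β (F * g) y = D.β y (F * g)) :
    ∃ κ : Multiplicative Λ →* WW D, (∀ F, (κ (.ofAdd F)).x = F * g) ∧ (∀ F, (κ F).i = 0) ∧
      ∀ (j : ℤ) F, TT D ^ j * κ (.ofAdd F) * (TT D ^ j)⁻¹ = κ (.ofAdd ((D.t ^ j : Λˣ) * F)) := by
  have hc : ∀ F : Λ, (⟨⟨F * g, 0, 0⟩, rfl⟩ : H0 D) ∈ Subgroup.center (H0 D) := by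
    intro F
    rw [Subgroup.mem_center_iff]
    rintro ⟨w, hw⟩
    have hw' : w.i = 0 := hw
    apply Subtype.ext
    ext <;> simp [hw', add_comm, hgc]
  obtain ⟨φ, hφ⟩ := hfree (Additive (Subgroup.center (H0 D)))
    (fun i => Additive.ofMul ⟨_, hc ((D.t ^ i : Λˣ) : Λ)⟩) (by
      intro i
      apply Additive.toMul.injective
      apply Subtype.ext
      apply Subtype.ext
      simp only [toMul_nsmul, toMul_ofMul, SubmonoidClass.coe_pow, toMul_zero, OneMemClass.coe_one]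
      rw [pow_zero_i, hd, hd2]
      ext <;> simp)
  let κ : Multiplicative Λ →* WW D := (H0 D).subtype.comp
    ((Subgroup.center (H0 D)).subtype.comp (AddMonoidHom.toMultiplicativeLeft φ))
  have hκ : ∀ i : ℤ, κ (.ofAdd ((D.t ^ i : Λˣ) : Λ)) = ⟨(D.t ^ i : Λˣ) * g, 0, 0⟩ := by
    intro i
    change (((φ _).toMul : H0 D) : WW D) = _
    rw [toAdd_ofAdd, hφ]; rfl
  have hi : ∀ F, (κ F).i = 0 := fun F => ((φ F.toAdd).toMul : H0 D).2
  refine ⟨κ, fun F => ?_, hi, fun j F => ?_⟩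
  · refine hgen
      { carrier := {F | (κ (.ofAdd F)).x = F * g}
        zero_mem' := by simp
        add_mem' := by
          intro a b (ha : _ = _) (hb : _ = _)
          change _ = _
          rw [ofAdd_add, map_mul, mul_x, hi, ha, hb]; simp [add_mul]
        neg_mem' := by
          intro a (ha : _ = _)
          change _ = _
          rw [ofAdd_neg, map_inv, inv_x, hi, ha]; simp } (fun i => ?_) F
    change _ = _
    rw [hκ]
  · refine hgen
      { carrier := {F | TT D ^ j * κ (.ofAdd F) * (TT D ^ j)⁻¹ =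
          κ (.ofAdd ((D.t ^ j : Λˣ) * F))}
        zero_mem' := by simp
        add_mem' := by
          intro a b (ha : _ = _) (hb : _ = _)
          change _ = _
          rw [mul_add, ofAdd_add, ofAdd_add, map_mul, map_mul, ← ha, ← hb]; group
        neg_mem' := by
          intro a (ha : _ = _)
          change _ = _
          rw [mul_neg, ofAdd_neg, ofAdd_neg, map_inv, map_inv, ← ha]; group } (fun i => ?_) F
    change _ = _
    rw [← Units.val_mul, ← zpow_add, hκ, hκ, conj_TT, zpow_add, Units.val_mul, mul_assoc]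

lemma exists_ev (t : Λˣ) (d : ℕ) (hgen : Gen t) (hfree : Free t d) (hd : ∀ x : Λ, d • x = 0) :
    ∃ ev : Λ →+ ZMod d, ev 1 = 1 ∧ (∀ (j : ℤ) x, ev ((t ^ j : Λˣ) * x) = ev x) ∧
      ∀ F, ev F = 0 → ∃ F', F = (t - 1) * F' := by
  obtain ⟨ev, hev⟩ := hfree (ZMod d) (fun _ => 1) (by simp)
  have h1 : ev 1 = 1 := by simpa using hev 0
  have h2 : ∀ (j : ℤ) x, ev ((t ^ j : Λˣ) * x) = ev x := by
    intro j x
    have := hgen (ev.comp (AddMonoidHom.mulLeft ((t ^ j : Λˣ) : Λ)) - ev).ker (fun i => by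
      change ev (_ * _) - ev _ = 0
      rw [← Units.val_mul, ← zpow_add, hev, hev, sub_self]) x
    exact sub_eq_zero.mp this
  refine ⟨ev, h1, h2, fun F hF => ?_⟩
  have h3 : ∃ (m : ℤ) (F' : Λ), F = m + (t - 1) * F' := by
    refine hgen
      { carrier := {F | ∃ (m : ℤ) (F' : Λ), F = m + (t - 1) * F'}
        zero_mem' := ⟨0, 0, by simp⟩
        add_mem' := by
          rintro _ _ ⟨a, b, rfl⟩ ⟨c, e, rfl⟩
          exact ⟨a + c, b + e, by push_cast; ring⟩
        neg_mem' := by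
          rintro _ ⟨a, b, rfl⟩
          exact ⟨-a, -b, by push_cast; ring⟩ } (fun i => ?_) F
    induction i using Int.induction_on with
    | zero => exact ⟨1, 0, by simp⟩
    | succ i ih =>
      obtain ⟨m, b, h⟩ := ih
      exact ⟨m, b * t + m, by rw [zpow_add_one, Units.val_mul, h]; ring⟩
    | pred i ih =>
      obtain ⟨m, b, h⟩ := ih
      refine ⟨m, (b - m) * (t⁻¹ : Λˣ), ?_⟩
      rw [zpow_sub_one, Units.val_mul, h]
      linear_combination (m : Λ) * Units.mul_inv t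
  obtain ⟨m, F', rfl⟩ := h3
  have h4 := h2 1 F'
  rw [zpow_one] at h4
  rw [map_add, sub_mul, map_sub, h4, one_mul, sub_self, add_zero, ← zsmul_one m, map_zsmul, h1,
    zsmul_one, ZMod.intCast_zmod_eq_zero_iff_dvd] at hF
  obtain ⟨k, rfl⟩ := hF
  refine ⟨F', ?_⟩
  have := hd (k : Λ)
  rw [nsmul_eq_mul] at this
  push_cast
  rw [this, zero_add]

end Pool.Agent.MP_ac0662_al
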