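import Mathlib

/-! The upper bound for the multiplier of an abelian-by-cyclic group. -/

namespace Pool.Agent.MP_ac0662_al

open Polynomial
open scoped IsMulCommutative commutatorElement

section ring

variable {Λ : Type} [CommRing Λ] (t : Λˣ)

/-- The element `t + t⁻¹`. -/
def ww : Λ := (t : Λ) + ((t⁻¹ : Λˣ) : Λ)

lemma t_mul_t : (t : Λ) * t = ww t * t - 1 := by
  unfold ww; rw [add_mul, Units.inv_mul]; ring

lemma ww_mul_zpow (k : ℤ) :
    ww t * ((t ^ k : Λˣ) : Λ) = ((t ^ (k + 1) : Λˣ) : Λ) + ((t ^ (k - 1) : Λˣ) : Λ) := by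
  unfold ww
  rw [zpow_add_one, zpow_sub_one, Units.val_mul, Units.val_mul]; ring

/-- The powers of `t` generate `Λ` additively. -/
def Gen : Prop := ∀ S : AddSubgroup Λ, (∀ i : ℤ, ((t ^ i : Λˣ) : Λ) ∈ S) → ∀ x, x ∈ S

lemma decomp (hgen : Gen t) (x : Λ) :
    ∃ F₀ F₁ : ℤ[X], x = aeval (ww t) F₀ + aeval (ww t) F₁ * t := by
  let S : AddSubgroup Λ :=
    { carrier := {x | ∃ F₀ F₁ : ℤ[X], x = aeval (ww t) F₀ + aeval (ww t) F₁ * t}
      zero_mem' := ⟨0, 0, by simp⟩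
      add_mem' := by
        rintro _ _ ⟨a, b, rfl⟩ ⟨c, d, rfl⟩
        exact ⟨a + c, b + d, by simp only [map_add]; ring⟩
      neg_mem' := by
        rintro _ ⟨a, b, rfl⟩
        exact ⟨-a, -b, by simp only [map_neg]; ring⟩ }
  refine hgen S (fun i => ?_) x
  induction i using Int.induction_on with
  | zero => exact ⟨1, 0, by simp⟩
  | succ i ih =>
    obtain ⟨a, b, h⟩ := ih
    refine ⟨-b, a + X * b, ?_⟩
    rw [zpow_add_one, Units.val_mul, h]
    simp only [map_neg, map_add, map_mul, aeval_X]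
    linear_combination aeval (ww t) b * t_mul_t t
  | pred i ih =>
    obtain ⟨a, b, h⟩ := ih
    refine ⟨a * X + b, -a, ?_⟩
    rw [zpow_sub_one, Units.val_mul, h]
    simp only [map_neg, map_add, map_mul, aeval_X]
    have h1 : ((t⁻¹ : Λˣ) : Λ) = ww t - t := by unfold ww; ring
    have h2 : (t : Λ) * ((t⁻¹ : Λˣ) : Λ) = 1 := Units.mul_inv t
    linear_combination aeval (ww t) a * h1 + aeval (ww t) b * h2

variable {K : Type} [AddCommGroup K]

lemma kill_sym (ψ : Λ →+ K) (h1 : ψ 1 = 0)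
    (h2 : ∀ k : ℤ, ψ ((t ^ k : Λˣ) : Λ) + ψ ((t ^ (-k) : Λˣ) : Λ) = 0) (F : ℤ[X]) :
    ψ (aeval (ww t) F) = 0 := by
  have h3 : ∀ n : ℕ, ∀ k : ℤ,
      ψ (ww t ^ n * (((t ^ k : Λˣ) : Λ) + ((t ^ (-k) : Λˣ) : Λ))) = 0 := by
    intro n
    induction n with
    | zero => intro k; simpa using h2 k
    | succ n ih =>
      intro k
      have e : ww t ^ (n + 1) * (((t ^ k : Λˣ) : Λ) + ((t ^ (-k) : Λˣ) : Λ)) =
          ww t ^ n * (((t ^ (k + 1) : Λˣ) : Λ) + ((t ^ (-(k + 1)) : Λˣ) : Λ)) +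
          ww t ^ n * (((t ^ (k - 1) : Λˣ) : Λ) + ((t ^ (-(k - 1)) : Λˣ) : Λ)) := by
        have e1 := ww_mul_zpow t k
        have e2 := ww_mul_zpow t (-k)
        rw [show -(k + 1) = -k - 1 by ring, show -(k - 1) = -k + 1 by ring]
        linear_combination ww t ^ n * (e1 + e2)
      rw [e, map_add, ih, ih, add_zero]
  have h4 : ∀ n : ℕ, ψ (ww t ^ n) = 0 := by
    intro n
    rcases n with _ | n
    · simpa using h1
    · have := h3 n 1
      rw [zpow_one, zpow_neg_one] at this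
      rw [pow_succ]; exact this
  induction F using Polynomial.induction_on' with
  | add a b ha hb => simp [ha, hb]
  | monomial n a =>
    rw [aeval_monomial, eq_intCast, ← zsmul_eq_mul, map_zsmul, h4, smul_zero]

lemma inv_zpow_form (b : Λ →+ Λ →+ K) (hinv : ∀ x y, b (t * x) (t * y) = b x y) (k : ℤ)
    (x y : Λ) : b ((t ^ k : Λˣ) * x) ((t ^ k : Λˣ) * y) = b x y := by
  induction k using Int.induction_on generalizing x y with
  | zero => simp
  | succ i ih => rw [zpow_add_one, Units.val_mul, mul_assoc, mul_assoc, ih, hinv]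
  | pred i ih =>
    rw [zpow_sub_one, Units.val_mul, mul_assoc, mul_assoc, ih, ← hinv, Units.mul_inv_cancel_left,
      Units.mul_inv_cancel_left]

theorem form_factor (hgen : Gen t) {A : Type} [AddCommGroup A] {P Q : ℤ[X]} (θ : ℤ[X] →+ A)
    (hθ : Function.Surjective θ) (hker : ∀ F, θ F = 0 ↔ F ∈ Ideal.span {P, Q})
    (b : Λ →+ Λ →+ K) (halt : ∀ x, b x x = 0) (hinv : ∀ x y, b (t * x) (t * y) = b x y)
    (hg : ∀ y, b (aeval (ww t) P * (t - 1) + aeval (ww t) Q) y = 0) :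
    ∃ η : A →+ K, (∀ x y, b x y ∈ η.range) ∧ ∀ a, ∃ x y, η a = b x y := by
  set g := aeval (ww t) P * (t - 1) + aeval (ww t) Q with hgdef
  have hskew : ∀ x y, b x y + b y x = 0 := by
    intro x y
    have := halt (x + y)
    simp only [map_add, AddMonoidHom.add_apply, halt] at this
    linear_combination (norm := abel) this
  let ψ : Λ →+ K := b.flip 1
  have hψ : ∀ x, ψ x = b x 1 := fun _ => rfl
  have hb : ∀ (k : ℤ) x, b x ((t ^ k : Λˣ) : Λ) = ψ ((t ^ (-k) : Λˣ) * x) := by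
    intro k x
    rw [hψ, ← inv_zpow_form t b hinv k (_ * x), ← mul_assoc, ← Units.val_mul, ← zpow_add]
    simp
  have hsym : ∀ F : ℤ[X], ψ (aeval (ww t) F) = 0 := kill_sym t ψ (halt 1) fun k => by
    have := hb k 1
    rw [mul_one] at this
    rw [← this, hψ, hskew]
  have hψg : ∀ F, ψ (F * g) = 0 := by
    intro F
    refine hgen (ψ.comp (AddMonoidHom.mulRight g)).ker (fun i => ?_) F
    have := hb (-i) g
    rw [neg_neg, hg] at this
    exact this.symm
  let h : ℤ[X] →+ K := ψ.comp ((AddMonoidHom.mulRight (t : Λ)).comp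
    (aeval (ww t) : ℤ[X] →ₐ[ℤ] Λ).toRingHom.toAddMonoidHom)
  have hh : ∀ F, h F = ψ (aeval (ww t) F * t) := fun _ => rfl
  have hP : ∀ F, h (F * P) = 0 := by
    intro F
    have e : aeval (ww t) (F * P) * t = aeval (ww t) F * g + aeval (ww t) (F * P - F * Q) := by
      simp only [hgdef, map_mul, map_sub]; ring
    rw [hh, e, map_add, hψg, hsym, add_zero]
  have hQ : ∀ F, h (F * Q) = 0 := by
    intro F
    have e : aeval (ww t) (F * Q) * t = aeval (ww t) F * t * g + aeval (ww t) (F * P)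
        + aeval (ww t) (F * (1 - X) * P) * t := by
      simp only [hgdef, map_mul, map_sub, map_one, aeval_X]
      linear_combination (-aeval (ww t) F * aeval (ww t) P) * t_mul_t t
    rw [hh, e, map_add, map_add, hψg, hsym, ← hh, hP]
    simp
  have hle : θ.ker ≤ h.ker := by
    intro F hF
    obtain ⟨a, c, rfl⟩ := Ideal.mem_span_pair.mp ((hker F).mp hF)
    rw [AddMonoidHom.mem_ker, map_add, hP, hQ, add_zero]
  let η : A →+ K := θ.liftOfSurjective hθ ⟨h, hle⟩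
  have hη : ∀ F, η (θ F) = h F := fun F => AddMonoidHom.liftOfRightInverse_comp_apply _ _ _ _ F
  have hψr : ∀ x, ψ x ∈ η.range := by
    intro x
    obtain ⟨F₀, F₁, rfl⟩ := decomp t hgen x
    exact ⟨θ F₁, by rw [hη, hh, map_add, hsym, zero_add]⟩
  refine ⟨η, fun x y => hgen (η.range.comap (b x)) (fun i => ?_) y, fun a => ?_⟩
  · rw [AddSubgroup.mem_comap, hb]
    exact hψr _
  · obtain ⟨F, rfl⟩ := hθ a
    exact ⟨_, _, hη F⟩

end ring

section group

variable {E : Type} [Group E]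

lemma comm_central_left {z : E} (hz : z ∈ Subgroup.center E) (u v : E) : ⁅z * u, v⁆ = ⁅u, v⁆ := by
  have h := Subgroup.mem_center_iff.mp hz (u * v * u⁻¹)
  simp only [commutatorElement_def]
  calc z * u * v * (z * u)⁻¹ * v⁻¹ = (z * (u * v * u⁻¹)) * z⁻¹ * v⁻¹ := by group
    _ = _ := by rw [← h]; group

lemma comm_mul_left {u u' v : E} (h : ⁅u', v⁆ ∈ Subgroup.center E) :
    ⁅u * u', v⁆ = ⁅u, v⁆ * ⁅u', v⁆ := by
  have h1 := Subgroup.mem_center_iff.mp h
  calc ⁅u * u', v⁆ = (u * ⁅u', v⁆) * u⁻¹ * ⁅u, v⁆ := by simp only [commutatorElement_def]; group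
    _ = ⁅u', v⁆ * ⁅u, v⁆ := by rw [h1]; group
    _ = _ := (h1 _).symm

lemma comm_pow_left {u v : E} (h : ⁅u, v⁆ ∈ Subgroup.center E) (n : ℕ) :
    ⁅u ^ n, v⁆ = ⁅u, v⁆ ^ n := by
  induction n with
  | zero => simp
  | succ n ih => rw [pow_succ, comm_mul_left h, ih, pow_succ]

lemma commute_pow_of_central {u v : E} (h : ⁅u, v⁆ ∈ Subgroup.center E) {n : ℕ}
    (hv : v ^ n ∈ Subgroup.center E) : ⁅u ^ n, v⁆ = 1 := by
  have h' : ⁅v, u⁆ ∈ Subgroup.center E := by
    rw [← commutatorElement_inv]; exact Subgroup.inv_mem _ h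
  have h1 : ⁅v ^ n, u⁆ = 1 := by simpa using comm_central_left hv 1 u
  rw [comm_pow_left h', ← commutatorElement_inv, inv_pow, inv_eq_one] at h1
  rw [comm_pow_left h, h1]

lemma commutator_abelian_by_cyclic (M : Subgroup E) [hn : M.Normal]
    (hab : ∀ a ∈ M, ∀ b ∈ M, a * b = b * a) (T : E)
    (hgen : ∀ e : E, ∃ m ∈ M, ∃ i : ℤ, e = m * T ^ i) (c : E) (hc : c ∈ commutator E) :
    ∃ m ∈ M, c = ⁅T, m⁆ := by
  have hmem : ∀ m ∈ M, ⁅T, m⁆ ∈ M := fun m hm =>
    M.mul_mem (hn.conj_mem m hm T) (M.inv_mem hm)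
  let φ : M →* E := MonoidHom.mk' (fun m => ⁅T, (m : E)⁆) (by
    intro a b
    have h1 := hab _ a.2 _ (hmem _ b.2)
    calc ⁅T, ((a * b : M) : E)⁆ = ⁅T, (a : E)⁆ * ((a * ⁅T, (b : E)⁆) * (a : E)⁻¹) := by
          simp only [commutatorElement_def, Subgroup.coe_mul]; group
      _ = _ := by rw [h1]; group)
  have hnorm : φ.range.Normal := by
    constructor
    rintro _ ⟨m, rfl⟩ e
    obtain ⟨m', hm', i, rfl⟩ := hgen e
    have h0 := hn.conj_mem m m.2 (T ^ i)
    refine ⟨⟨_, h0⟩, ?_⟩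
    have h1 := hab _ hm' _ (hmem _ h0)
    change ⁅T, T ^ i * m * (T ^ i)⁻¹⁆ = m' * T ^ i * ⁅T, (m : E)⁆ * (m' * T ^ i)⁻¹
    calc ⁅T, T ^ i * m * (T ^ i)⁻¹⁆ = m' * ⁅T, T ^ i * m * (T ^ i)⁻¹⁆ * m'⁻¹ := by
          rw [h1]; group
      _ = _ := by simp only [commutatorElement_def]; group
  have hle : commutator E ≤ φ.range := by
    rw [commutator_def, Subgroup.commutator_le]
    intro g₁ _ g₂ _
    rw [← QuotientGroup.eq_one_iff]
    change QuotientGroup.mk' φ.range ⁅g₁, g₂⁆ = 1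
    rw [map_commutatorElement, commutatorElement_eq_one_iff_commute]
    have hT : ∀ m ∈ M, Commute (QuotientGroup.mk' φ.range T) (QuotientGroup.mk' φ.range m) := by
      intro m hm
      rw [← commutatorElement_eq_one_iff_commute, ← map_commutatorElement]
      exact (QuotientGroup.eq_one_iff _).2 ⟨⟨m, hm⟩, rfl⟩
    obtain ⟨m₁, h₁, i, rfl⟩ := hgen g₁
    obtain ⟨m₂, h₂, j, rfl⟩ := hgen g₂
    have hmm : Commute (QuotientGroup.mk' φ.range m₁) (QuotientGroup.mk' φ.range m₂) :=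
      Commute.map (hab _ h₁ _ h₂) _
    simp only [map_mul, map_zpow]
    exact (hmm.mul_right ((hT _ h₁).symm.zpow_right j)).mul_left
      (((hT _ h₂).zpow_left i).mul_right (Commute.zpow_zpow_self _ i j))
  obtain ⟨m, hm⟩ := hle hc
  exact ⟨m, m.2, hm.symm⟩

end group

theorem upper_bound {Λ : Type} [CommRing Λ] (t : Λˣ) (hgen : Gen t) {A : Type} [AddCommGroup A]
    {P Q : ℤ[X]} (θ : ℤ[X] →+ A) (hθ : Function.Surjective θ)
    (hker : ∀ F, θ F = 0 ↔ F ∈ Ideal.span {P, Q})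
    {G : Type} [Group G] (ι : Multiplicative Λ →* G) (T : G)
    (hT : ∀ x, T * ι (.ofAdd x) * T⁻¹ = ι (.ofAdd (t * x)))
    (hG : ∀ g, ∃ (x : Λ) (i : ℤ), g = ι (.ofAdd x) * T ^ i) (q d : ℕ) (hd : ∀ x : Λ, d • x = 0)
    (hq : ∀ y, ⁅T ^ q, ι (.ofAdd y)⁆ = 1)
    (hg : ι (.ofAdd (aeval (ww t) P * (t - 1) + aeval (ww t) Q)) = T ^ (q * d))
    (hfix : ∀ x, ι (.ofAdd ((t - 1) * x)) = 1 → ∃ j : ℤ, ι (.ofAdd x) = T ^ j)
    (F : Type) [Group F] (ρ : F →* G) (hρ : Function.Surjective ρ)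
    (hc : ρ.ker ≤ Subgroup.center F) :
    ∃ η : A → F, ∀ z ∈ ρ.ker, z ∈ commutator F → z ∈ Set.range η := by
  obtain ⟨s, hs⟩ := hρ.hasRightInverse
  have hs' : ∀ g, ρ (s g) = g := hs
  have hL : ∀ {u u' : F} (v : F), ρ u = ρ u' → ⁅u, v⁆ = ⁅u', v⁆ := by
    intro u u' v h
    have : u * u'⁻¹ ∈ Subgroup.center F := hc (by simp [MonoidHom.mem_ker, h])
    simpa using comm_central_left this u' v
  have hR : ∀ (u : F) {v v' : F}, ρ v = ρ v' → ⁅u, v⁆ = ⁅u, v'⁆ := by
    intro u v v' h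
    rw [← commutatorElement_inv, hL u h, commutatorElement_inv]
  let l : Λ → F := fun x => s (ι (.ofAdd x))
  have hl : ∀ x, ρ (l x) = ι (.ofAdd x) := fun x => hs' _
  have hcen : ∀ x y, ⁅l x, l y⁆ ∈ Subgroup.center F := by
    intro x y
    apply hc
    rw [MonoidHom.mem_ker, map_commutatorElement, hl, hl, ← map_commutatorElement,
      commutatorElement_eq_one_iff_mul_comm.2 (mul_comm _ _), map_one]
  let b₀ : Λ → Λ → Additive (Subgroup.center F) := fun x y => Additive.ofMul ⟨_, hcen x y⟩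
  have hb1 : ∀ x x' y, b₀ (x + x') y = b₀ x y + b₀ x' y := by
    intro x x' y
    apply Additive.toMul.injective
    apply Subtype.ext
    change ⁅l (x + x'), l y⁆ = ⁅l x, l y⁆ * ⁅l x', l y⁆
    rw [← comm_mul_left (hcen x' y)]
    exact hL _ (by rw [map_mul, hl, hl, hl, ofAdd_add, map_mul])
  have hb0 : ∀ x y, b₀ x y = - b₀ y x := by
    intro x y
    apply Additive.toMul.injective
    apply Subtype.ext
    exact (commutatorElement_inv _ _).symm
  let b : Λ →+ Λ →+ Additive (Subgroup.center F) := AddMonoidHom.mk'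
    (fun x => AddMonoidHom.mk' (b₀ x) fun y y' => by
      rw [hb0, hb1, hb0 y, hb0 y']; abel) fun x x' => by ext1 y; exact hb1 x x' y
  have hb : ∀ x y, ((b x y).toMul : F) = ⁅l x, l y⁆ := fun _ _ => rfl
  have hext : ∀ {x y : Λ} {z : Additive (Subgroup.center F)}, ⁅l x, l y⁆ = (z.toMul : F) →
      b x y = z := fun h => Additive.toMul.injective (Subtype.ext h)
  set T' := s T with hT'
  have hρT : ρ T' = T := hs' T
  have hconj : ∀ x, ρ (l (t * x)) = ρ (T' * l x * T'⁻¹) := by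
    intro x; simp only [map_mul, map_inv, hl, hρT, hT]
  obtain ⟨η, hη, hη₂⟩ := form_factor t hgen θ hθ hker b (fun x => hext (by simp))
    (fun x y => hext (by
      rw [hb, hL _ (hconj x), hR _ (hconj y), ← conjugate_commutatorElement,
        Subgroup.mem_center_iff.mp (hcen x y)]
      group))
    (fun y => hext (by
      have h1 : ⁅T' ^ q, l y⁆ ∈ Subgroup.center F := hc (by
        rw [MonoidHom.mem_ker, map_commutatorElement, map_pow, hρT, hl, hq])
      have h2 : l y ^ d ∈ Subgroup.center F := hc (by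
        rw [MonoidHom.mem_ker, map_pow, hl, ← map_pow, ← ofAdd_nsmul, hd, ofAdd_zero, map_one])
      rw [hL (u' := (T' ^ q) ^ d) _ (by rw [hl, hg, map_pow, map_pow, hρT, pow_mul]),
        commute_pow_of_central h1 h2]
      rfl))
  let η' : Multiplicative A →* F := (Subgroup.center F).subtype.comp
    (AddMonoidHom.toMultiplicativeLeft η)
  have hη' : ∀ x y, ⁅l x, l y⁆ ∈ η'.range := by
    intro x y
    obtain ⟨a, ha⟩ := hη x y
    refine ⟨.ofAdd a, ?_⟩
    rw [← hb, ← ha]; rfl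
  have hDc : η'.range ≤ Subgroup.center F := by
    rintro _ ⟨a, rfl⟩
    exact Subtype.property _
  have hDn : η'.range.Normal := ⟨fun z hz g => by
    rw [Subgroup.mem_center_iff.mp (hDc hz)]; simpa using hz⟩
  refine ⟨fun a => η' (.ofAdd a), fun z hz hz' => ?_⟩
  have hιn : ι.range.Normal := by
    constructor
    rintro _ ⟨x, rfl⟩ g
    obtain ⟨y, i, rfl⟩ := hG g
    have h1 : ∀ (i : ℤ) (x : Λ), ∃ x', T ^ i * ι (.ofAdd x) * (T ^ i)⁻¹ = ι (.ofAdd x') := by
      intro i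
      induction i using Int.induction_on with
      | zero => intro x; exact ⟨x, by simp⟩
      | succ i ih =>
        intro x
        obtain ⟨x', hx'⟩ := ih (t * x)
        exact ⟨x', by rw [← hx', ← hT, zpow_add_one]; group⟩
      | pred i ih =>
        intro x
        obtain ⟨x', hx'⟩ := ih ((t⁻¹ : Λˣ) * x)
        have := hT ((t⁻¹ : Λˣ) * x)
        rw [Units.mul_inv_cancel_left] at this
        exact ⟨x', by rw [← hx', ← this, zpow_sub_one]; group⟩
    obtain ⟨x', hx'⟩ := h1 i x.toAdd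
    have : ι (.ofAdd y) * T ^ i * ι x * (ι (.ofAdd y) * T ^ i)⁻¹ =
        ι (.ofAdd y) * ι (.ofAdd x') * (ι (.ofAdd y))⁻¹ := by
      rw [← hx', ofAdd_toAdd]; group
    rw [this]
    exact Subgroup.mul_mem _ (Subgroup.mul_mem _ ⟨_, rfl⟩ ⟨_, rfl⟩) (Subgroup.inv_mem _ ⟨_, rfl⟩)
  let μ := QuotientGroup.mk' η'.range
  have hμ : Function.Surjective μ := QuotientGroup.mk'_surjective _
  have hMn : ((ι.range.comap ρ).map μ).Normal := (hιn.comap ρ).map μ hμ
  obtain ⟨_, ⟨m, ⟨x, hx⟩, rfl⟩, hm⟩ := commutator_abelian_by_cyclic ((ι.range.comap ρ).map μ)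
    (by
      rintro _ ⟨a, ⟨x, hx⟩, rfl⟩ _ ⟨c, ⟨y, hy⟩, rfl⟩
      rw [← commutatorElement_eq_one_iff_mul_comm, ← map_commutatorElement,
        hL (u' := l x.toAdd) _ (by rw [hl, ← hx]; rfl), hR (v' := l y.toAdd) _ (by rw [hl, ← hy]; rfl)]
      exact (QuotientGroup.eq_one_iff _).2 (hη' _ _))
    (μ T') (by
      intro e
      obtain ⟨e, rfl⟩ := hμ e
      obtain ⟨x, i, h⟩ := hG (ρ e)
      refine ⟨μ (e * (T' ^ i)⁻¹), ⟨_, ⟨.ofAdd x, ?_⟩, rfl⟩, i, by simp⟩
      simp [h, hρT])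
    (μ z) (by
      have := Subgroup.mem_map_of_mem μ hz'
      rw [map_commutator_eq] at this
      exact Subgroup.commutator_mono le_top le_top this)
  rw [← map_commutatorElement] at hm
  have hD : z⁻¹ * ⁅T', m⁆ ∈ η'.range := QuotientGroup.eq.mp hm
  have hDk : η'.range ≤ ρ.ker := by
    rintro _ ⟨a, rfl⟩
    obtain ⟨x, y, h⟩ := hη₂ a.toAdd
    have : η' a = ⁅l x, l y⁆ := by rw [← hb, ← h]; rfl
    rw [this, MonoidHom.mem_ker, map_commutatorElement, hl, hl, ← map_commutatorElement,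
      commutatorElement_eq_one_iff_mul_comm.2 (mul_comm _ _), map_one]
  have h1 : ρ ⁅T', m⁆ = 1 := by
    have := ρ.ker.mul_mem hz (hDk hD)
    rwa [mul_inv_cancel_left] at this
  have h2 : ι (.ofAdd ((t - 1) * x.toAdd)) = 1 := by
    rw [map_commutatorElement, hρT, ← hx, commutatorElement_def, ← ofAdd_toAdd x, hT,
      ← map_inv, ← map_mul, ← ofAdd_neg, ← ofAdd_add] at h1
    rw [← h1]; congr 2; ring
  obtain ⟨j, hj⟩ := hfix _ h2
  have h3 : ⁅T', m⁆ = 1 := by
    rw [hR (v' := T' ^ j) _ (by rw [map_zpow, hρT, ← hj, ← hx]; rfl),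
      commutatorElement_eq_one_iff_commute]
    exact Commute.self_zpow _ _
  rw [h3, mul_one, inv_mem_iff] at hD
  obtain ⟨a, ha⟩ := hD
  exact ⟨a.toAdd, ha⟩

end Pool.Agent.MP_ac0662_al
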